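import Pool.Agent.H605.Kak.Core

set_option autoImplicit false

open Finset N047c7463 Filter Real

namespace Pool.Agent.H605.Kak

theorem log_three_halves : (2 : ℝ) / 5 ≤ Real.log (3 / 2) := by
  have h1 : Real.exp 2 ≤ (3 / 2 : ℝ) ^ 5 := by
    have h2 : Real.exp 2 = Real.exp 1 * Real.exp 1 := by rw [← Real.exp_add]; norm_num
    have h3 := Real.exp_one_lt_d9
    have h4 := Real.exp_pos 1
    rw [h2]
    nlinarith
  have h5 : (2 : ℝ) ≤ Real.log ((3 / 2 : ℝ) ^ 5) := by
    rw [Real.le_log_iff_exp_le (by positivity)]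
    exact h1
  rw [Real.log_pow] at h5
  push_cast at h5
  linarith

theorem log_four : Real.log 4 ≤ 3 / 2 := by
  have h1 : Real.log 4 = 2 * Real.log 2 := by
    rw [show (4 : ℝ) = 2 ^ 2 by norm_num, Real.log_pow]
    push_cast
    ring
  have h2 := Real.log_two_lt_d9
  rw [h1]
  linarith

/-- the conditions on `x = log n` -/
theorem ev_cond : ∀ᶠ x : ℝ in atTop, 100 ≤ x ∧ 3 ≤ Real.log x ∧ 400 * Real.log x ^ 2 ≤ x := by
  have h1 : (fun x : ℝ => Real.log x ^ 2) =o[atTop] (id : ℝ → ℝ) := isLittleO_pow_log_id_atTop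
  have h2 := h1.def (show (0 : ℝ) < 1 / 400 by norm_num)
  have h3 : ∀ᶠ x : ℝ in atTop, 3 ≤ Real.log x := Real.tendsto_log_atTop.eventually_ge_atTop 3
  filter_upwards [h2, h3, eventually_ge_atTop 100] with x h4 h5 h6
  refine ⟨h6, h5, ?_⟩
  rw [Real.norm_eq_abs, Real.norm_eq_abs, id, abs_of_nonneg (by positivity),
    abs_of_nonneg (by linarith)] at h4
  linarith

/-- consequence of the conditions -/
theorem exp_bound {x : ℝ} (h1 : 100 ≤ x) (h2 : 3 ≤ Real.log x) (h3 : 400 * Real.log x ^ 2 ≤ x) :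
    12 * x ≤ Real.exp (x / Real.log x / 200) := by
  have hx : 0 < x := by linarith
  have hl : 0 < Real.log x := by linarith
  have h4 : Real.log 12 ≤ Real.log x := Real.log_le_log (by norm_num) (by linarith)
  have h5 : Real.log (12 * x) ≤ x / Real.log x / 200 := by
    rw [Real.log_mul (by norm_num) hx.ne', div_div, le_div_iff₀ (by positivity)]
    nlinarith
  calc 12 * x = Real.exp (Real.log (12 * x)) := (Real.exp_log (by positivity)).symm
    _ ≤ _ := Real.exp_le_exp.2 h5

set_option maxHeartbeats 4000000 in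
/-- **Lower bound**: `f(n, m) > n ^ (1 + 1 / (200 log log n))` for some `m`. -/
theorem lower : ∀ᶠ n : ℕ in atTop, ∃ m : ℕ, ∀ L : ℕ, HasDivisibleDistinctTuple n m L →
    (n : ℝ) ^ (1 + 1 / (200 * Real.log (Real.log n))) < L := by
  have hev := (Real.tendsto_log_atTop.comp tendsto_natCast_atTop_atTop).eventually ev_cond
  filter_upwards [hev, eventually_ge_atTop 2] with n hn hn2
  obtain ⟨x, hx⟩ : ∃ x, x = Real.log n := ⟨_, rfl⟩
  simp only [Function.comp_apply] at hn
  rw [← hx] at hn ⊢
  obtain ⟨hx1, hx2, hx3⟩ := hn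
  have hx0 : 0 < x := by linarith
  have hl0 : 0 < Real.log x := by linarith
  have hnpos : (0 : ℝ) < n := by exact_mod_cast (by omega : 0 < n)
  have hnexp : (n : ℝ) = Real.exp x := by rw [hx, Real.exp_log hnpos]
  have hb := exp_bound hx1 hx2 hx3
  obtain ⟨w, hw⟩ : ∃ w, w = x / Real.log x := ⟨_, rfl⟩
  rw [← hw] at hb
  have hw1 : 400 * Real.log x ≤ w := by
    rw [hw, le_div_iff₀ hl0]
    nlinarith
  have hw2 : w ≤ x / 3 := by
    rw [hw]
    exact div_le_div_of_nonneg_left hx0.le (by norm_num) hx2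
  have hw0 : 1200 ≤ w := by linarith
  -- the parameters
  obtain ⟨z, hz⟩ : ∃ z, z = ⌊x / 6⌋₊ := ⟨_, rfl⟩
  have hz1 : (z : ℝ) ≤ x / 6 := by rw [hz]; exact Nat.floor_le (by positivity)
  have hz2 : x / 6 < z + 1 := by rw [hz]; exact Nat.lt_floor_add_one _
  have hz3 : x / 7 ≤ z := by linarith
  obtain ⟨P, hPd⟩ : ∃ P, P = (Nat.primesLE z).erase 2 := ⟨_, rfl⟩
  have hP : ∀ p ∈ P, p.Prime ∧ 3 ≤ p := by
    intro p hp
    rw [hPd, Finset.mem_erase, Nat.mem_primesLE] at hp
    have := hp.2.2.two_le
    exact ⟨hp.2.2, by omega⟩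
  obtain ⟨Q, hQ⟩ : ∃ Q, Q = ∏ p ∈ P, p := ⟨_, rfl⟩
  have hQ0 : 0 < Q := by rw [hQ]; exact Finset.prod_pos fun p hp => (hP p hp).1.pos
  have hQ1 : Q ≤ 4 ^ z := by
    refine le_trans ?_ (primorial_le_four_pow z)
    rw [primorial_eq_prod_primesLE, hQ, hPd]
    apply Finset.prod_le_prod_of_subset_of_one_le' (Finset.erase_subset _ _)
    intro p hp _
    exact (Nat.mem_primesLE.1 hp).2.one_le
  have hQ2 : (Q : ℝ) ≤ Real.exp (x / 4) := by
    calc (Q : ℝ) ≤ (4 : ℝ) ^ z := by exact_mod_cast hQ1
      _ = Real.exp (z * Real.log 4) := by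
        rw [mul_comm, Real.exp_mul, Real.exp_log (by norm_num), Real.rpow_natCast]
      _ ≤ _ := by
        apply Real.exp_le_exp.2
        calc (z : ℝ) * Real.log 4 ≤ (x / 6) * (3 / 2) :=
              mul_le_mul hz1 log_four (Real.log_nonneg (by norm_num)) (by positivity)
          _ = x / 4 := by ring
  have hm1 : w / 15 ≤ P.card := by
    have h1 : (Nat.primeCounting z : ℝ) - 1 ≤ P.card := by
      have h2 : Nat.primeCounting z = (Nat.primesLE z).card := by
        rw [Nat.primeCounting, Nat.primeCounting', Nat.count_eq_card_filter_range]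
        rfl
      have h3 := Finset.pred_card_le_card_erase (s := Nat.primesLE z) (a := 2)
      rw [← hPd, ← h2] at h3
      have h4 : Nat.primeCounting z ≤ P.card + 1 := by omega
      have h5 : (Nat.primeCounting z : ℝ) ≤ P.card + 1 := by exact_mod_cast h4
      linarith
    have h6 := Chebyshev.pi_ge z
    have hz10 : (10 : ℝ) ≤ z := by linarith
    have hlz : 0 < Real.log z := Real.log_pos (by linarith)
    have hlz2 : Real.log z ≤ Real.log x := Real.log_le_log (by linarith) (by linarith)
    have hlz3 : Real.log ((z : ℝ) + 1) ≤ Real.log x := Real.log_le_log (by linarith) (by linarith)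
    have h7 : (9 : ℝ) / 100 * x ≤ z * Real.log 2 - Real.log (z + 1) := by
      have h8 := Real.log_two_gt_d9
      have h9 : Real.log x ≤ x / 1200 := by
        have h9a : 3 * Real.log x ≤ Real.log x ^ 2 := by
          rw [pow_two]; exact mul_le_mul_of_nonneg_right hx2 hl0.le
        linarith only [h9a, hx3]
      have h11 : (z : ℝ) * (69 / 100) ≤ z * Real.log 2 :=
        mul_le_mul_of_nonneg_left (by linarith only [h8]) (Nat.cast_nonneg _)
      linarith only [h11, h9, hlz3, hz2, hx1]
    have h10 : (9 : ℝ) / 100 * w ≤ Nat.primeCounting z := by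
      calc (9 : ℝ) / 100 * w = (9 / 100 * x) / Real.log x := by rw [hw]; ring
        _ ≤ (9 / 100 * x) / Real.log z :=
          div_le_div_of_nonneg_left (by positivity) hlz hlz2
        _ ≤ (z * Real.log 2 - Real.log (z + 1)) / Real.log z :=
          div_le_div_of_nonneg_right h7 hlz.le
        _ ≤ _ := h6
    linarith
  have hm2 : Real.exp (w / 40) ≤ (3 / 2 : ℝ) ^ P.card := by
    have h1 : (3 / 2 : ℝ) ^ P.card = Real.exp (P.card * Real.log (3 / 2)) := by
      rw [mul_comm, Real.exp_mul, Real.exp_log (by norm_num), Real.rpow_natCast]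
    rw [h1]
    apply Real.exp_le_exp.2
    calc w / 40 ≤ (w / 15) * (2 / 5) := by linarith
      _ ≤ P.card * Real.log (3 / 2) :=
        mul_le_mul hm1 log_three_halves (by norm_num) (Nat.cast_nonneg _)
  obtain ⟨k, hk⟩ : ∃ k, k = ⌈Real.exp (w / 100)⌉₊ := ⟨_, rfl⟩
  have hk1 : Real.exp (w / 100) ≤ k := by rw [hk]; exact Nat.le_ceil _
  have hk2 : (k : ℝ) ≤ 2 * Real.exp (w / 100) := by
    have h1 : (k : ℝ) < Real.exp (w / 100) + 1 := by
      rw [hk]; exact Nat.ceil_lt_add_one (Real.exp_pos _).le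
    have h2 : 1 ≤ Real.exp (w / 100) := Real.one_le_exp (by positivity)
    linarith
  obtain ⟨N0, hN0⟩ : ∃ N0, N0 = ⌊(n : ℝ) / (4 * x)⌋₊ := ⟨_, rfl⟩
  have hN1 : (N0 : ℝ) ≤ n / (4 * x) := by rw [hN0]; exact Nat.floor_le (by positivity)
  have hN2 : (n : ℝ) / (4 * x) < N0 + 1 := by rw [hN0]; exact Nat.lt_floor_add_one _
  -- inequalities for `n`
  have hbx : 12 * x ≤ Real.exp (x / 600) :=
    hb.trans (Real.exp_le_exp.2 (by linarith))
  have hnx : 12 * x * Real.exp (x / 4) ≤ Real.exp (x / 3) := by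
    calc 12 * x * Real.exp (x / 4) ≤ Real.exp (x / 600) * Real.exp (x / 4) :=
          mul_le_mul_of_nonneg_right hbx (Real.exp_pos _).le
      _ = Real.exp (x / 600 + x / 4) := by rw [Real.exp_add]
      _ ≤ _ := Real.exp_le_exp.2 (by linarith)
  have hnx2 : 12 * x * Real.exp (x / 3) ≤ n := by
    rw [hnexp]
    calc 12 * x * Real.exp (x / 3) ≤ Real.exp (x / 600) * Real.exp (x / 3) :=
          mul_le_mul_of_nonneg_right hbx (Real.exp_pos _).le
      _ = Real.exp (x / 600 + x / 3) := by rw [Real.exp_add]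
      _ ≤ _ := Real.exp_le_exp.2 (by linarith)
  have he4 : 1 ≤ Real.exp (x / 4) := Real.one_le_exp (by positivity)
  have he3 : 1200 ≤ Real.exp (x / 3) := by nlinarith
  have hQn : (Q : ℝ) ≤ n / (12 * x * 1200) := by
    rw [le_div_iff₀ (by positivity)]
    nlinarith
  have hlog1 : Real.log ((n : ℝ) + 1) ≤ x + 1 := by
    have h1 : (n : ℝ) + 1 ≤ n * Real.exp 1 := by
      have h2 : (1 : ℝ) ≤ n := by exact_mod_cast (by omega : 1 ≤ n)
      have h3 := Real.add_one_le_exp (1 : ℝ)
      nlinarith
    calc Real.log ((n : ℝ) + 1) ≤ Real.log (n * Real.exp 1) :=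
          Real.log_le_log (by positivity) h1
      _ = x + 1 := by rw [Real.log_mul hnpos.ne' (Real.exp_pos _).ne', Real.log_exp, hx]
  have hxn : x + 1 ≤ n / 100 := by
    rw [le_div_iff₀ (by norm_num)]
    nlinarith
  have hpi : (68 : ℝ) / 100 * n / x ≤ Nat.primeCounting n := by
    refine le_trans ?_ (Chebyshev.pi_ge n)
    rw [← hx]
    apply div_le_div_of_nonneg_right _ hx0.le
    have := Real.log_two_gt_d9
    nlinarith
  -- the window
  have hwin : N0 + Q < n := by
    have h1 : (N0 : ℝ) + Q < n := by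
      have h2 : (n : ℝ) / (4 * x) ≤ n / 4 := by
        apply div_le_div_of_nonneg_left hnpos.le (by norm_num) (by linarith)
      have h3 : (n : ℝ) / (12 * x * 1200) ≤ n / 4 := by
        apply div_le_div_of_nonneg_left hnpos.le (by norm_num) (by linarith)
      linarith
    exact_mod_cast h1
  obtain ⟨v, hv1, hv2, hv3⟩ := window (n := n) (N := Q) (N0 := N0) (range Q)
    (fun d hd => Finset.mem_range.1 hd) hwin
  obtain ⟨D, hD⟩ : ∃ D, D = (range Q).filter fun d => (v + d).Prime := ⟨_, rfl⟩
  rw [← hD, Finset.card_range] at hv3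
  have hv3' : (Q : ℝ) * Nat.primeCounting n ≤ Q * (N0 + 2 * Q) + n * D.card := by
    exact_mod_cast hv3
  have hDc : (Q : ℝ) / (3 * x) ≤ D.card := by
    have h1 : (n : ℝ) / (3 * x) ≤ Nat.primeCounting n - N0 - 2 * Q := by
      have h2 : (68 : ℝ) / 100 * n / x - n / (4 * x) - 2 * (n / (12 * x * 1200)) ≤
          Nat.primeCounting n - N0 - 2 * Q := by linarith
      refine le_trans ?_ h2
      have h3 : (68 : ℝ) / 100 * n / x - n / (4 * x) - 2 * (n / (12 * x * 1200)) =
          (n / x) * (68 / 100 - 1 / 4 - 2 / 14400) := by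
        field_simp
        ring
      have h4 : (n : ℝ) / (3 * x) = (n / x) * (1 / 3) := by
        field_simp
      rw [h3, h4]
      apply mul_le_mul_of_nonneg_left _ (by positivity)
      norm_num
    have h5 : (Q : ℝ) * (n / (3 * x)) ≤ n * D.card := by
      calc (Q : ℝ) * (n / (3 * x)) ≤ Q * (Nat.primeCounting n - N0 - 2 * Q) :=
            mul_le_mul_of_nonneg_left h1 (by positivity)
        _ ≤ _ := by linarith
    have h6 : (Q : ℝ) * (n / (3 * x)) = n * (Q / (3 * x)) := by ring
    rw [h6] at h5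
    exact le_of_mul_le_mul_left h5 hnpos
  have hQv : Q ≤ v := by
    have h1 : (Q : ℝ) < N0 + 1 := by
      refine lt_of_le_of_lt ?_ hN2
      refine hQn.trans ?_
      apply div_le_div_of_nonneg_left hnpos.le (by positivity) (by linarith)
    have h2 : Q < N0 + 1 := by exact_mod_cast h1
    omega
  have hcond : k * k * (2 ^ P.card * Q) < 3 ^ P.card * D.card := by
    have h1 : (k : ℝ) * k * (2 ^ P.card * Q) < 3 ^ P.card * D.card := by
      have h2 : (3 : ℝ) ^ P.card = 2 ^ P.card * (3 / 2 : ℝ) ^ P.card := by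
        rw [← mul_pow]; norm_num
      have h3 : (k : ℝ) * k < Real.exp (w / 40) / (3 * x) := by
        rw [lt_div_iff₀ (by positivity)]
        have h4 : (k : ℝ) * k ≤ 4 * Real.exp (w / 50) := by
          calc (k : ℝ) * k ≤ (2 * Real.exp (w / 100)) * (2 * Real.exp (w / 100)) :=
                mul_le_mul hk2 hk2 (by positivity) (by positivity)
            _ = 4 * (Real.exp (w / 100) * Real.exp (w / 100)) := by ring
            _ = 4 * Real.exp (w / 50) := by rw [← Real.exp_add]; congr 2; ring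
        have h5 : Real.exp (w / 40) = Real.exp (w / 50) * Real.exp (w / 200) := by
          rw [← Real.exp_add]; congr 1; ring
        have h6 : (12 : ℝ) * x < Real.exp (w / 200) ∨ (12 : ℝ) * x = Real.exp (w / 200) :=
          lt_or_eq_of_le hb
        have h7 : (k : ℝ) * k * (3 * x) ≤ Real.exp (w / 50) * (12 * x) := by
          calc (k : ℝ) * k * (3 * x) ≤ 4 * Real.exp (w / 50) * (3 * x) :=
                mul_le_mul_of_nonneg_right h4 (by positivity)
            _ = _ := by ring
        -- strictness from `k < 2 exp (w / 100)`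
        have hk3 : (k : ℝ) < 2 * Real.exp (w / 100) := by
          have h1 : (k : ℝ) < Real.exp (w / 100) + 1 := by
            rw [hk]; exact Nat.ceil_lt_add_one (Real.exp_pos _).le
          have h2 : 1 ≤ Real.exp (w / 100) := Real.one_le_exp (by positivity)
          linarith
        have hk0 : (0 : ℝ) < k := lt_of_lt_of_le (Real.exp_pos _) hk1
        have h8 : (k : ℝ) * k < 4 * Real.exp (w / 50) := by
          calc (k : ℝ) * k < (2 * Real.exp (w / 100)) * (2 * Real.exp (w / 100)) :=
                mul_lt_mul hk3 hk2 hk0 (by positivity)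
            _ = 4 * (Real.exp (w / 100) * Real.exp (w / 100)) := by ring
            _ = 4 * Real.exp (w / 50) := by rw [← Real.exp_add]; congr 2; ring
        calc (k : ℝ) * k * (3 * x) < 4 * Real.exp (w / 50) * (3 * x) :=
              mul_lt_mul_of_pos_right h8 (by positivity)
          _ = Real.exp (w / 50) * (12 * x) := by ring
          _ ≤ Real.exp (w / 50) * Real.exp (w / 200) :=
              mul_le_mul_of_nonneg_left hb (Real.exp_pos _).le
          _ = _ := h5.symm
      have hQr : (0 : ℝ) < Q := by exact_mod_cast hQ0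
      calc (k : ℝ) * k * (2 ^ P.card * Q) < Real.exp (w / 40) / (3 * x) * (2 ^ P.card * Q) :=
            mul_lt_mul_of_pos_right h3 (by positivity)
        _ = 2 ^ P.card * Real.exp (w / 40) * (Q / (3 * x)) := by ring
        _ ≤ 2 ^ P.card * (3 / 2 : ℝ) ^ P.card * D.card := by
            apply mul_le_mul _ hDc (by positivity) (by positivity)
            exact mul_le_mul_of_nonneg_left hm2 (by positivity)
        _ = _ := by rw [h2]
    exact_mod_cast h1
  obtain ⟨m, hmm⟩ := core (n := n) (v := v) (k := k) (P := P) (D := D) hP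
    (fun d hd => by
      rw [hD, Finset.mem_filter, Finset.mem_range] at hd
      exact ⟨by rw [← hQ]; exact hd.1, hd.2, by omega⟩)
    (by rw [← hQ]; exact hQv) (by rw [← hQ]; exact hcond)
  refine ⟨m, fun L hL => ?_⟩
  have h1 : (k : ℝ) * v < L := by exact_mod_cast hmm L hL
  refine lt_of_le_of_lt ?_ h1
  have h2 : (n : ℝ) / (4 * x) ≤ v := by
    have h3 : (N0 : ℝ) + 1 ≤ v := by exact_mod_cast hv1
    linarith
  have h4 : (n : ℝ) ^ (1 + 1 / (200 * Real.log x)) = n * Real.exp (w / 200) := by
    rw [Real.rpow_add hnpos, Real.rpow_one, Real.rpow_def_of_pos hnpos, ← hx, hw]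
    congr 2
    field_simp
  rw [h4]
  have h5 : Real.exp (w / 100) = Real.exp (w / 200) * Real.exp (w / 200) := by
    rw [← Real.exp_add]; congr 1; ring
  calc (n : ℝ) * Real.exp (w / 200) = Real.exp (w / 200) * (4 * x) * (n / (4 * x)) := by
        field_simp
    _ ≤ Real.exp (w / 200) * Real.exp (w / 200) * v := by
        apply mul_le_mul _ h2 (by positivity) (by positivity)
        apply mul_le_mul_of_nonneg_left _ (Real.exp_pos _).le
        linarith
    _ ≤ k * v := by
        rw [← h5]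
        exact mul_le_mul_of_nonneg_right hk1 (by positivity)

end Pool.Agent.H605.Kak
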