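import Mathlib
import Pool.Prelude.Def_F_c8429539

/-!
# Few multiples in a long interval: the finite construction

`P` is a finite set of odd primes, `Q` its product, `α d ≡ -d²` modulo `Q`.  For every slope `j`
the residues `α d + j d` modulo `Q` lie in a set of at most `(2/3)^|P| Q` residues.
-/

set_option autoImplicit false

open Finset N047c7463

namespace Pool.Agent.H605.Kak

/-- the values of `j y - y²` modulo `p` -/
def S (p j : ℕ) : Finset ℕ := (range p).image (fun y => (j * y + (p - 1) * y ^ 2) % p)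

theorem card_image_zmod (p : ℕ) [Fact p.Prime] (hp : 3 ≤ p) (j : ZMod p) :
    3 * (univ.image (fun y : ZMod p => j * y - y ^ 2)).card ≤ 2 * p := by
  classical
  have hp2 : (2 : ZMod p) ≠ 0 := by
    intro h
    have h2 : ((2 : ℕ) : ZMod p) = 0 := by exact_mod_cast h
    rw [ZMod.natCast_eq_zero_iff] at h2
    exact absurd (Nat.le_of_dvd (by norm_num) h2) (by omega)
  obtain ⟨f, hf⟩ : ∃ f : ZMod p → ZMod p, f = fun y => j * y - y ^ 2 := ⟨_, rfl⟩
  have key : 2 * ((univ.erase (j / 2)).image f).card ≤ (univ.erase (j / 2) : Finset (ZMod p)).card := by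
    apply Finset.mul_card_image_le_card
    intro a ha
    obtain ⟨y, hy, hya⟩ := Finset.mem_image.1 ha
    have hy' : y ≠ j / 2 := (Finset.mem_erase.1 hy).1
    have hne : y ≠ j - y := by
      intro h
      apply hy'
      rw [eq_div_iff hp2]
      linear_combination h
    have h2 : j - y ≠ j / 2 := by
      intro h
      apply hy'
      rw [eq_div_iff hp2] at h ⊢
      linear_combination -h
    calc 2 = ({y, j - y} : Finset (ZMod p)).card := (Finset.card_pair hne).symm
      _ ≤ _ := by
        apply Finset.card_le_card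
        intro z hz
        rw [Finset.mem_insert, Finset.mem_singleton] at hz
        rw [Finset.mem_filter, Finset.mem_erase]
        rcases hz with rfl | rfl
        · exact ⟨⟨hy', Finset.mem_univ _⟩, hya⟩
        · refine ⟨⟨h2, Finset.mem_univ _⟩, ?_⟩
          rw [← hya, hf]
          ring
  have h1 : (univ.image f).card ≤ ((univ.erase (j / 2)).image f).card + 1 := by
    have : univ.image f ⊆ insert (f (j / 2)) ((univ.erase (j / 2)).image f) := by
      intro a ha
      obtain ⟨y, -, rfl⟩ := Finset.mem_image.1 ha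
      rw [Finset.mem_insert]
      by_cases h : y = j / 2
      · left; rw [h]
      · right; exact Finset.mem_image_of_mem _ (Finset.mem_erase.2 ⟨h, Finset.mem_univ _⟩)
    exact (Finset.card_le_card this).trans (Finset.card_insert_le _ _)
  have h3 : (univ.erase (j / 2) : Finset (ZMod p)).card = p - 1 := by
    rw [Finset.card_erase_of_mem (Finset.mem_univ _), Finset.card_univ, ZMod.card]
  rw [h3] at key
  rw [← hf]
  omega

theorem card_S {p : ℕ} (hp : p.Prime) (hp3 : 3 ≤ p) (j : ℕ) : 3 * (S p j).card ≤ 2 * p := by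
  have : Fact p.Prime := ⟨hp⟩
  refine le_trans ?_ (card_image_zmod p hp3 (j : ZMod p))
  refine Nat.mul_le_mul_left 3 ?_
  apply Finset.card_le_card_of_injOn (fun r : ℕ => (r : ZMod p))
  · intro r hr
    obtain ⟨y, -, rfl⟩ := Finset.mem_image.1 (Finset.mem_coe.1 hr)
    rw [Finset.mem_coe, Finset.mem_image]
    refine ⟨(y : ZMod p), Finset.mem_univ _, ?_⟩
    have h1 : ((p - 1 : ℕ) : ZMod p) = -1 := by
      rw [Nat.cast_sub hp.one_le]; simp
    simp only [ZMod.natCast_mod]
    push_cast
    rw [h1]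
    ring
  · intro r hr s hs hrs
    obtain ⟨y, -, rfl⟩ := Finset.mem_image.1 (Finset.mem_coe.1 hr)
    obtain ⟨z, -, rfl⟩ := Finset.mem_image.1 (Finset.mem_coe.1 hs)
    simp only [ZMod.natCast_eq_natCast_iff'] at hrs
    rwa [Nat.mod_mod, Nat.mod_mod] at hrs

/-- residues modulo `∏ p ∈ P, p` which are values of `j y - y²` modulo all `p ∈ P` -/
def R (P : Finset ℕ) (j : ℕ) : Finset ℕ :=
  (range (∏ p ∈ P, p)).filter (fun r => ∀ p ∈ P, r % p ∈ S p j)

theorem card_R {P : Finset ℕ} (hP : ∀ p ∈ P, p.Prime ∧ 3 ≤ p) (j : ℕ) :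
    3 ^ P.card * (R P j).card ≤ 2 ^ P.card * ∏ p ∈ P, p := by
  classical
  have h1 : (R P j).card ≤ (P.pi fun p => S p j).card := by
    apply Finset.card_le_card_of_injOn (fun r : ℕ => fun (p : ℕ) (_ : p ∈ P) => r % p)
    · intro r hr
      rw [Finset.mem_coe, Finset.mem_pi]
      rw [Finset.mem_coe, R, Finset.mem_filter] at hr
      exact hr.2
    · intro r hr s hs hrs
      rw [Finset.mem_coe, R, Finset.mem_filter, Finset.mem_range] at hr hs
      have h2 : ∀ p ∈ P, r % p = s % p := fun p hp => congrFun (congrFun hrs p) hp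
      have h3 : r ≡ s [MOD ∏ p ∈ P, p] := by
        rw [Nat.modEq_iff_dvd]
        have h4 : ∀ p ∈ P, (p : ℤ) ∣ (s : ℤ) - r := fun p hp =>
          (Nat.modEq_iff_dvd).1 (h2 p hp)
        push_cast
        apply Finset.prod_dvd_of_coprime _ h4
        intro p hp q hq hpq
        rw [Function.onFun, Nat.isCoprime_iff_coprime]
        exact (Nat.coprime_primes (hP p hp).1 (hP q hq).1).2 hpq
      exact Nat.ModEq.eq_of_lt_of_lt h3 hr.1 hs.1
  rw [Finset.card_pi] at h1
  calc 3 ^ P.card * (R P j).card ≤ 3 ^ P.card * ∏ p ∈ P, (S p j).card := Nat.mul_le_mul_left _ h1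
    _ = ∏ p ∈ P, 3 * (S p j).card := by rw [Finset.prod_mul_distrib, Finset.prod_const]
    _ ≤ ∏ p ∈ P, 2 * p := Finset.prod_le_prod' fun p hp => card_S (hP p hp).1 (hP p hp).2 j
    _ = 2 ^ P.card * ∏ p ∈ P, p := by rw [Finset.prod_mul_distrib, Finset.prod_const]

/-- the number in `[0, Q)` congruent to `-d²` -/
def al (Q d : ℕ) : ℕ := (Q - d ^ 2 % Q) % Q

theorem al_lt {Q : ℕ} (hQ : 0 < Q) (d : ℕ) : al Q d < Q := Nat.mod_lt _ hQ

theorem al_mod {Q : ℕ} (hQ : 0 < Q) (d : ℕ) : (Q : ℤ) ∣ (al Q d : ℤ) + (d : ℤ) ^ 2 := by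
  have h1 : al Q d ≡ Q - d ^ 2 % Q [MOD Q] := Nat.mod_modEq _ _
  have h2 : al Q d + d ^ 2 ≡ 0 [MOD Q] := by
    have h3 : d ^ 2 ≡ d ^ 2 % Q [MOD Q] := (Nat.mod_modEq _ _).symm
    have h4 := h1.add h3
    rw [Nat.sub_add_cancel (Nat.mod_lt _ hQ).le] at h4
    exact h4.trans (by rw [Nat.ModEq, Nat.mod_self, Nat.zero_mod])
  have h5 := (Nat.modEq_zero_iff_dvd).1 h2
  exact_mod_cast h5

theorem mem_R {P : Finset ℕ} (hP : ∀ p ∈ P, p.Prime ∧ 3 ≤ p) (j d : ℕ) :
    (al (∏ p ∈ P, p) d + j * d) % (∏ p ∈ P, p) ∈ R P j := by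
  obtain ⟨Q, hQ⟩ : ∃ Q, Q = ∏ p ∈ P, p := ⟨_, rfl⟩
  have hQ0 : 0 < Q := by rw [hQ]; exact Finset.prod_pos fun p hp => (hP p hp).1.pos
  rw [← hQ, R, Finset.mem_filter, ← hQ, Finset.mem_range]
  refine ⟨Nat.mod_lt _ hQ0, fun p hp => ?_⟩
  have hpp := (hP p hp).1
  have hpQ : p ∣ Q := by rw [hQ]; exact Finset.dvd_prod_of_mem _ hp
  rw [Nat.mod_mod_of_dvd _ hpQ, S, Finset.mem_image]
  refine ⟨d % p, Finset.mem_range.2 (Nat.mod_lt _ hpp.pos), ?_⟩
  have h1 : (p : ℤ) ∣ (al Q d : ℤ) + (d : ℤ) ^ 2 :=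
    (Int.natCast_dvd_natCast.2 hpQ).trans (al_mod hQ0 d)
  have h2 : j * (d % p) + (p - 1) * (d % p) ^ 2 ≡ al Q d + j * d [MOD p] := by
    have h3 : j * (d % p) + (p - 1) * (d % p) ^ 2 ≡ j * d + (p - 1) * d ^ 2 [MOD p] :=
      ((Nat.mod_modEq d p).mul_left j).add (((Nat.mod_modEq d p).pow 2).mul_left (p - 1))
    refine h3.trans ?_
    rw [Nat.modEq_iff_dvd]
    push_cast [Nat.cast_sub hpp.one_le]
    have h4 : (al Q d : ℤ) + j * d - (j * d + ((p : ℤ) - 1) * d ^ 2) =
        ((al Q d : ℤ) + d ^ 2) - p * d ^ 2 := by ring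
    rw [h4]
    exact dvd_sub h1 (dvd_mul_right _ _)
  exact h2

/-- The finite construction: the primes `v + d`, `d ∈ D`, have few multiples in an interval of
length `k v` (all of the form `x + j v + (α d + j d)`). -/
theorem core_general {n v k : ℕ} {D : Finset ℕ} (α : ℕ → ℕ)
    (hD : ∀ d ∈ D, (v + d).Prime ∧ v + d ≤ n) (hα : ∀ d ∈ D, α d < v + d)
    (T : Finset (ℕ × ℕ)) (hT : ∀ d ∈ D, ∀ j < k, (j, α d + j * d) ∈ T)
    (hc : T.card < D.card) :
    ∃ m : ℕ, ∀ L : ℕ, HasDivisibleDistinctTuple n m L → k * v < L := by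
  classical
  -- the Chinese remainder theorem
  have hpw : Set.Pairwise (↑D : Set ℕ) (Function.onFun Nat.Coprime fun d => v + d) := by
    intro d hd e he hde
    rw [Function.onFun]
    exact (Nat.coprime_primes (hD d hd).1 (hD e he).1).2 (by omega)
  obtain ⟨x, hx⟩ := Nat.chineseRemainderOfFinset (fun d => v + d - α d) (fun d => v + d) D
    (fun d hd => (hD d hd).1.ne_zero) hpw
  refine ⟨x, fun L hL => ?_⟩
  by_contra hcon
  push Not at hcon
  obtain ⟨a, ainj, ha⟩ := hL
  have hdvd : ∀ d ∈ D, (v + d) ∣ x + α d := by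
    intro d hd
    have h1 : α d ≤ v + d := (hα d hd).le
    have h2 := (hx d hd).add_right (α d)
    rw [Nat.sub_add_cancel h1] at h2
    exact (Nat.modEq_zero_iff_dvd).1 (h2.trans (by rw [Nat.ModEq, Nat.mod_self, Nat.zero_mod]))
  -- the chosen multiples
  have hpos : ∀ d ∈ D, 0 < v + d := fun d hd => (hD d hd).1.pos
  obtain ⟨b, hb⟩ : ∃ b : ℕ → ℕ, ∀ d, ∀ hd : d ∈ D, b d = a ⟨v + d - 1, by
      have := hpos d hd; have := (hD d hd).2; omega⟩ := by
    refine ⟨fun d => if hd : d ∈ D then a ⟨v + d - 1, by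
      have := hpos d hd; have := (hD d hd).2; omega⟩ else 0, fun d hd => ?_⟩
    simp only [hd, dif_pos]
  have hb1 : ∀ d ∈ D, x < b d ∧ b d < x + k * v ∧ (v + d) ∣ b d := by
    intro d hd
    have h1 := ha ⟨v + d - 1, by have := hpos d hd; have := (hD d hd).2; omega⟩
    rw [← hb d hd] at h1
    obtain ⟨h2, h3, h4⟩ := h1
    refine ⟨h2, by omega, ?_⟩
    have h5 := hpos d hd
    simp only at h4
    rwa [Nat.sub_add_cancel h5] at h4
  have binj : ∀ d ∈ D, ∀ e ∈ D, b d = b e → d = e := by
    intro d hd e he h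
    rw [hb d hd, hb e he] at h
    have h1 := ainj h
    rw [Fin.mk.injEq] at h1
    have := hpos d hd
    have := hpos e he
    omega
  -- the form of the multiples
  have hform : ∀ d ∈ D, ∃ j < k, b d = x + j * v + (α d + j * d) := by
    intro d hd
    obtain ⟨h1, h2, h3⟩ := hb1 d hd
    obtain ⟨β, hβ⟩ : ∃ β, b d = x + β := ⟨b d - x, by omega⟩
    have h4 : β ≡ α d [MOD v + d] := by
      have h5 : x + β ≡ x + α d [MOD v + d] := by
        rw [← hβ]
        exact ((Nat.modEq_zero_iff_dvd).2 h3).trans ((Nat.modEq_zero_iff_dvd).2 (hdvd d hd)).symm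
      exact Nat.ModEq.add_left_cancel' x h5
    have h6 : α d < v + d := hα d hd
    have h7 : β % (v + d) = α d := by
      have := h4
      rw [Nat.ModEq, Nat.mod_eq_of_lt h6] at this
      exact this
    have h8 := Nat.div_add_mod β (v + d)
    rw [h7] at h8
    refine ⟨β / (v + d), ?_, ?_⟩
    · have h9 : β < k * v := by omega
      rw [Nat.div_lt_iff_lt_mul (hpos d hd)]
      calc β < k * v := h9
        _ ≤ k * (v + d) := Nat.mul_le_mul_left k (by omega)
    · rw [hβ]
      have h10 : (v + d) * (β / (v + d)) = β / (v + d) * v + β / (v + d) * d := by ring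
      rw [h10] at h8
      omega
  choose! j hj1 hj2 using hform
  have hcard : D.card ≤ T.card := by
    apply Finset.card_le_card_of_injOn (fun d => (j d, α d + j d * d))
    · intro d hd
      exact hT d hd _ (hj1 d hd)
    · intro d hd e he hde
      rw [Finset.mem_coe] at hd he
      simp only [Prod.mk.injEq] at hde
      apply binj d hd e he
      rw [hj2 d hd, hj2 e he, hde.2, hde.1]
  omega

/-- The construction with the squares modulo `∏ p ∈ P, p`. -/
theorem core {n v k : ℕ} {P D : Finset ℕ} (hP : ∀ p ∈ P, p.Prime ∧ 3 ≤ p)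
    (hD : ∀ d ∈ D, d < ∏ p ∈ P, p ∧ (v + d).Prime ∧ v + d ≤ n) (hQv : (∏ p ∈ P, p) ≤ v)
    (hc : k * k * (2 ^ P.card * ∏ p ∈ P, p) < 3 ^ P.card * D.card) :
    ∃ m : ℕ, ∀ L : ℕ, HasDivisibleDistinctTuple n m L → k * v < L := by
  classical
  obtain ⟨Q, hQ⟩ : ∃ Q, Q = ∏ p ∈ P, p := ⟨_, rfl⟩
  have hQ0 : 0 < Q := by rw [hQ]; exact Finset.prod_pos fun p hp => (hP p hp).1.pos
  rw [← hQ] at hQv hc
  rw [← hQ] at hD
  obtain ⟨T0, hT0⟩ : ∃ T0 : Finset (Σ _ : ℕ, ℕ × ℕ),
    T0 = (range k).sigma fun i => (R P i) ×ˢ range k := ⟨_, rfl⟩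
  refine core_general (al Q) (fun d hd => (hD d hd).2)
    (fun d hd => by have := al_lt hQ0 d; omega)
    (T0.image fun t => (t.1, t.2.2 * Q + t.2.1)) ?_ ?_
  · intro d hd j hj
    rw [Finset.mem_image]
    refine ⟨⟨j, ((al Q d + j * d) % Q, (al Q d + j * d) / Q)⟩, ?_, ?_⟩
    · rw [hT0, Finset.mem_sigma]
      refine ⟨Finset.mem_range.2 hj, Finset.mem_product.2 ⟨?_, ?_⟩⟩
      · simp only
        rw [hQ]
        exact mem_R hP _ _
      · simp only
        rw [Finset.mem_range, Nat.div_lt_iff_lt_mul hQ0]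
        have h2 := (hD d hd).1
        have h3 := al_lt hQ0 d
        calc al Q d + j * d < Q + j * Q := by
              have := Nat.mul_le_mul_left j h2.le
              omega
          _ = (j + 1) * Q := by ring
          _ ≤ k * Q := Nat.mul_le_mul_right Q hj
    · simp only [Prod.mk.injEq, true_and]
      rw [mul_comm]
      exact Nat.div_add_mod _ _
  · have h1 : 3 ^ P.card * T0.card ≤ k * k * (2 ^ P.card * Q) := by
      rw [hT0, Finset.card_sigma]
      calc 3 ^ P.card * ∑ i ∈ range k, ((R P i) ×ˢ range k).card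
          = ∑ i ∈ range k, k * (3 ^ P.card * (R P i).card) := by
            rw [Finset.mul_sum]
            refine Finset.sum_congr rfl fun i _ => ?_
            rw [Finset.card_product, Finset.card_range]
            ring
        _ ≤ ∑ i ∈ range k, k * (2 ^ P.card * Q) := by
            refine Finset.sum_le_sum fun i _ => Nat.mul_le_mul_left k ?_
            rw [hQ]
            exact card_R hP i
        _ = k * k * (2 ^ P.card * Q) := by
            rw [Finset.sum_const, Finset.card_range, smul_eq_mul]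
            ring
    have h2 : (T0.image fun t => (t.1, t.2.2 * Q + t.2.1)).card ≤ T0.card := Finset.card_image_le
    have h3 : 3 ^ P.card * T0.card < 3 ^ P.card * D.card := h1.trans_lt hc
    exact h2.trans_lt (Nat.lt_of_mul_lt_mul_left h3)

/-- A window: for a set `D` of nonnegative integers below `N` there is `v` in `(N₀, n - N]` with
`v + d` prime for many `d ∈ D`. -/
theorem window {n N N0 : ℕ} (D : Finset ℕ) (hD : ∀ d ∈ D, d < N) (hn : N0 + N < n) :
    ∃ v, N0 < v ∧ v + N ≤ n ∧
      D.card * Nat.primeCounting n ≤ D.card * (N0 + 2 * N) +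
        n * (D.filter fun d => (v + d).Prime).card := by
  classical
  have hne : (Ioc N0 (n - N)).Nonempty := ⟨n - N, Finset.mem_Ioc.2 ⟨by omega, le_rfl⟩⟩
  obtain ⟨v, hv, hmax⟩ := Finset.exists_max_image (Ioc N0 (n - N))
    (fun v => (D.filter fun d => (v + d).Prime).card) hne
  rw [Finset.mem_Ioc] at hv
  refine ⟨v, hv.1, by omega, ?_⟩
  have h1 : ∑ w ∈ Ioc N0 (n - N), (D.filter fun d => (w + d).Prime).card ≤
      n * (D.filter fun d => (v + d).Prime).card := by
    calc _ ≤ ∑ w ∈ Ioc N0 (n - N), (D.filter fun d => (v + d).Prime).card :=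
          Finset.sum_le_sum fun w hw => hmax w hw
      _ = (n - N - N0) * (D.filter fun d => (v + d).Prime).card := by
          rw [Finset.sum_const, Nat.card_Ioc, smul_eq_mul]
      _ ≤ _ := Nat.mul_le_mul_right _ (by omega)
  have h2 : ∑ w ∈ Ioc N0 (n - N), (D.filter fun d => (w + d).Prime).card =
      ∑ d ∈ D, ((Ioc N0 (n - N)).filter fun w => (w + d).Prime).card := by
    simp only [Finset.card_filter]
    rw [Finset.sum_comm]
  have h3 : ∀ d ∈ D, Nat.primeCounting n ≤ (N0 + 2 * N) +
      ((Ioc N0 (n - N)).filter fun w => (w + d).Prime).card := by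
    intro d hd
    have hd' := hD d hd
    have h4 : (range (n + 1)).filter Nat.Prime ⊆ (range (N0 + N + 1) ∪ Ioc (n - N) n) ∪
        ((Ioc N0 (n - N)).filter fun w => (w + d).Prime).image (fun w => w + d) := by
      intro p hp
      rw [Finset.mem_filter, Finset.mem_range] at hp
      rw [Finset.mem_union, Finset.mem_union, Finset.mem_range, Finset.mem_Ioc, Finset.mem_image]
      by_cases h5 : p < N0 + N + 1
      · left; left; exact h5
      by_cases h6 : n - N < p
      · left; right; exact ⟨h6, by omega⟩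
      · right
        refine ⟨p - d, ?_, by omega⟩
        rw [Finset.mem_filter, Finset.mem_Ioc]
        refine ⟨by omega, ?_⟩
        rw [Nat.sub_add_cancel (by omega)]
        exact hp.2
    have h7 : Nat.primeCounting n = ((range (n + 1)).filter Nat.Prime).card := by
      rw [Nat.primeCounting, Nat.primeCounting', Nat.count_eq_card_filter_range]
    have h9 : ((range (n + 1)).filter Nat.Prime).card ≤
        ((range (N0 + N + 1) ∪ Ioc (n - N) n) ∪
        ((Ioc N0 (n - N)).filter fun w => (w + d).Prime).image (fun w => w + d)).card :=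
      Finset.card_le_card h4
    have h10 := Finset.card_union_le (range (N0 + N + 1) ∪ Ioc (n - N) n)
      (((Ioc N0 (n - N)).filter fun w => (w + d).Prime).image (fun w => w + d))
    have h11 := Finset.card_union_le (range (N0 + N + 1)) (Ioc (n - N) n)
    have h12 := Finset.card_image_le (s := (Ioc N0 (n - N)).filter fun w => (w + d).Prime)
      (f := fun w => w + d)
    rw [Finset.card_range, Nat.card_Ioc] at h11
    -- `0` is not prime, so one element can be saved
    have h13 : (range (n + 1)).filter Nat.Prime ⊆ (((range (N0 + N + 1)).erase 0) ∪ Ioc (n - N) n) ∪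
        ((Ioc N0 (n - N)).filter fun w => (w + d).Prime).image (fun w => w + d) := by
      intro p hp
      have hp' := h4 hp
      rw [Finset.mem_filter] at hp
      rw [Finset.mem_union, Finset.mem_union] at hp' ⊢
      rcases hp' with (h | h) | h
      · left; left; exact Finset.mem_erase.2 ⟨hp.2.ne_zero, h⟩
      · left; right; exact h
      · right; exact h
    have h14 := Finset.card_le_card h13
    have h15 := Finset.card_union_le (((range (N0 + N + 1)).erase 0) ∪ Ioc (n - N) n)
      (((Ioc N0 (n - N)).filter fun w => (w + d).Prime).image (fun w => w + d))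
    have h16 := Finset.card_union_le ((range (N0 + N + 1)).erase 0) (Ioc (n - N) n)
    rw [Finset.card_erase_of_mem (Finset.mem_range.2 (by omega)), Finset.card_range,
      Nat.card_Ioc] at h16
    rw [h7]
    omega
  calc D.card * Nat.primeCounting n = ∑ d ∈ D, Nat.primeCounting n := by
        rw [Finset.sum_const, smul_eq_mul]
    _ ≤ ∑ d ∈ D, ((N0 + 2 * N) + ((Ioc N0 (n - N)).filter fun w => (w + d).Prime).card) :=
        Finset.sum_le_sum h3
    _ = D.card * (N0 + 2 * N) + ∑ d ∈ D, ((Ioc N0 (n - N)).filter fun w => (w + d).Prime).card := by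
        rw [Finset.sum_add_distrib, Finset.sum_const, smul_eq_mul]
    _ ≤ _ := by rw [← h2]; omega

end Pool.Agent.H605.Kak
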