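import Pool.Agent.H605.Kak.Core

/-!
# `f(n, n)` is small: an elementary bound `f(n, n) ≤ C n log² n`
-/

set_option autoImplicit false

open Finset N047c7463 Filter Real

namespace Pool.Agent.H605.Kak

theorem two_pow_card_primeFactors_le {a : ℕ} (ha : a ≠ 0) : 2 ^ a.primeFactors.card ≤ a := by
  calc 2 ^ a.primeFactors.card = ∏ _p ∈ a.primeFactors, 2 := by rw [Finset.prod_const]
    _ ≤ ∏ p ∈ a.primeFactors, p := Finset.prod_le_prod' fun p hp =>
        (Nat.prime_of_mem_primeFactors hp).two_le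
    _ ≤ a := Nat.le_of_dvd (Nat.pos_of_ne_zero ha) (Nat.prod_primeFactors_dvd a)

theorem diag_finite {n T Δ : ℕ} (hΔ0 : 0 < Δ)
    (hΔ : ∀ k, 1 ≤ k → k ≤ n → Δ ≤ ((Ioc (n / k) (T * (n / k))).filter Nat.Prime).card)
    (hω : T * n < 2 ^ (Δ + 1)) : HasDivisibleDistinctTuple n n (T * n + 1) := by
  classical
  obtain ⟨t, ht⟩ : ∃ t : Fin n → Finset ℕ, t = fun i =>
    ((Ioc (n / (i.val + 1)) (T * (n / (i.val + 1)))).filter Nat.Prime).image
      fun q => (i.val + 1) * q := ⟨_, rfl⟩
  have hmem : ∀ i a, a ∈ t i → n < a ∧ a ≤ T * n ∧ (i.val + 1) ∣ a ∧ (a / (i.val + 1)).Prime := by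
    intro i a ha
    rw [ht, Finset.mem_image] at ha
    obtain ⟨q, hq, rfl⟩ := ha
    rw [Finset.mem_filter, Finset.mem_Ioc, Nat.div_lt_iff_lt_mul (by omega)] at hq
    refine ⟨by rw [mul_comm]; exact hq.1.1, ?_, dvd_mul_right _ _, ?_⟩
    · calc (i.val + 1) * q ≤ (i.val + 1) * (T * (n / (i.val + 1))) := Nat.mul_le_mul_left _ hq.1.2
        _ = T * ((n / (i.val + 1)) * (i.val + 1)) := by ring
        _ ≤ T * n := Nat.mul_le_mul_left _ (Nat.div_mul_le_self _ _)
    · rw [Nat.mul_div_cancel_left _ (by omega)]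
      exact hq.2
  have hcard : ∀ i, Δ ≤ (t i).card := by
    intro i
    rw [ht, Finset.card_image_of_injective _ (fun a b hab => Nat.eq_of_mul_eq_mul_left (by omega) hab)]
    exact hΔ _ (by omega) (by omega)
  have hall : ∀ s : Finset (Fin n), s.card ≤ (s.biUnion t).card := by
    intro s
    have h1 : s.card * Δ ≤ (s.biUnion t).card * Δ := by
      apply Finset.card_mul_le_card_mul (fun (i : Fin n) (a : ℕ) => a ∈ t i)
      · intro i hi
        refine (hcard i).trans (Finset.card_le_card fun a ha => ?_)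
        rw [Finset.mem_bipartiteAbove]
        exact ⟨Finset.mem_biUnion.2 ⟨i, hi, ha⟩, ha⟩
      · intro a ha
        obtain ⟨i0, -, hi0⟩ := Finset.mem_biUnion.1 ha
        have ha0 : a ≠ 0 := by have := (hmem i0 a hi0).1; omega
        have haT := (hmem i0 a hi0).2.1
        have h2 : (s.bipartiteBelow (fun (i : Fin n) (a : ℕ) => a ∈ t i) a).card ≤
            a.primeFactors.card := by
          apply Finset.card_le_card_of_injOn (fun i : Fin n => a / (i.val + 1))
          · intro i hi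
            rw [Finset.mem_coe, Finset.mem_bipartiteBelow] at hi
            obtain ⟨-, -, h3, h4⟩ := hmem i a hi.2
            rw [Finset.mem_coe, Nat.mem_primeFactors]
            exact ⟨h4, Nat.div_dvd_of_dvd h3, ha0⟩
          · intro i hi j hj hij
            rw [Finset.mem_coe, Finset.mem_bipartiteBelow] at hi hj
            obtain ⟨-, -, h3, h4⟩ := hmem i a hi.2
            obtain ⟨-, -, h5, h6⟩ := hmem j a hj.2
            simp only at hij
            have h7 := Nat.div_mul_cancel h3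
            have h8 := Nat.div_mul_cancel h5
            rw [← hij] at h8
            have h9 : i.val + 1 = j.val + 1 :=
              Nat.eq_of_mul_eq_mul_left h4.pos (h7.trans h8.symm)
            exact Fin.ext (by omega)
        refine h2.trans ?_
        have h10 := two_pow_card_primeFactors_le ha0
        by_contra h11
        push Not at h11
        have h12 : 2 ^ (Δ + 1) ≤ 2 ^ a.primeFactors.card := Nat.pow_le_pow_right (by norm_num) h11
        omega
    exact Nat.le_of_mul_le_mul_right h1 hΔ0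
  obtain ⟨f, hf1, hf2⟩ := (Finset.all_card_le_biUnion_card_iff_exists_injective t).1 hall
  refine ⟨f, hf1, fun i => ?_⟩
  obtain ⟨h1, h2, h3, -⟩ := hmem i _ (hf2 i)
  exact ⟨h1, by omega, h3⟩

/-- `f(n, n) ≤ 200 n log² n` for large `n`, in the form of the existence of the tuple. -/
theorem diag : ∀ᶠ n : ℕ in atTop, ∃ L : ℕ, 0 < L ∧ HasDivisibleDistinctTuple n n L ∧
    (L : ℝ) ≤ 200 * n * Real.log n ^ 2 := by
  have hev : ∀ᶠ n : ℕ in atTop, 100 * Real.log n ^ 2 ≤ n := by
    have h1 : (fun x : ℝ => Real.log x ^ 2) =o[atTop] (id : ℝ → ℝ) := isLittleO_pow_log_id_atTop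
    have h2 := h1.def (show (0 : ℝ) < 1 / 100 by norm_num)
    filter_upwards [tendsto_natCast_atTop_atTop.eventually h2] with n h3
    rw [Real.norm_eq_abs, Real.norm_eq_abs, id, abs_of_nonneg (by positivity),
      abs_of_nonneg (by positivity)] at h3
    linarith
  have hev2 : ∀ᶠ n : ℕ in atTop, 10 ≤ Real.log n :=
    (Real.tendsto_log_atTop.comp tendsto_natCast_atTop_atTop).eventually_ge_atTop 10
  filter_upwards [hev, hev2, eventually_ge_atTop 2] with n h1 h2 hn2
  obtain ⟨x, hx⟩ : ∃ x, x = Real.log n := ⟨_, rfl⟩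
  rw [← hx] at h1 h2 ⊢
  have hnpos : (0 : ℝ) < n := by exact_mod_cast (by omega : 0 < n)
  obtain ⟨T, hT⟩ : ∃ T, T = ⌈50 * x ^ 2⌉₊ := ⟨_, rfl⟩
  have hT1 : 50 * x ^ 2 ≤ T := by rw [hT]; exact Nat.le_ceil _
  have hT2 : (T : ℝ) ≤ 51 * x ^ 2 := by
    have h3 : (T : ℝ) < 50 * x ^ 2 + 1 := by rw [hT]; exact Nat.ceil_lt_add_one (by positivity)
    nlinarith
  have hTn : (T : ℝ) ≤ n := by nlinarith
  have hTn' : T ≤ n := by exact_mod_cast hTn
  obtain ⟨Δ, hΔ⟩ : ∃ Δ, Δ = ⌊4 * x⌋₊ := ⟨_, rfl⟩
  have hΔ1 : (Δ : ℝ) ≤ 4 * x := by rw [hΔ]; exact Nat.floor_le (by linarith)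
  have hΔ2 : 4 * x < Δ + 1 := by rw [hΔ]; exact Nat.lt_floor_add_one _
  have hΔ0 : 0 < Δ := by
    have : (0 : ℝ) < Δ := by linarith
    exact_mod_cast this
  have hlog2 := Real.log_two_gt_d9
  have hTx : 500 * x ≤ T := by nlinarith
  refine ⟨T * n + 1, by omega, diag_finite hΔ0 ?_ ?_, ?_⟩
  · intro k hk1 hkn
    obtain ⟨X, hX⟩ : ∃ X, X = n / k := ⟨_, rfl⟩
    rw [← hX]
    have hX1 : 1 ≤ X := by
      rw [hX, Nat.one_le_div_iff (by omega)]; exact hkn
    have hX2 : X ≤ n := by rw [hX]; exact Nat.div_le_self _ _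
    have hX1' : (1 : ℝ) ≤ X := by exact_mod_cast hX1
    have hX2' : (X : ℝ) ≤ n := by exact_mod_cast hX2
    have h3 : Nat.primeCounting (T * X) ≤ X + ((Ioc X (T * X)).filter Nat.Prime).card := by
      rw [Nat.primeCounting, Nat.primeCounting', Nat.count_eq_card_filter_range]
      have h4 : (range (T * X + 1)).filter Nat.Prime ⊆
          Ioc 0 X ∪ (Ioc X (T * X)).filter Nat.Prime := by
        intro p hp
        rw [Finset.mem_filter, Finset.mem_range] at hp
        have h5 := hp.2.pos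
        rw [Finset.mem_union, Finset.mem_Ioc, Finset.mem_filter, Finset.mem_Ioc]
        by_cases h6 : p ≤ X
        · left; exact ⟨h5, h6⟩
        · right; exact ⟨⟨by omega, by omega⟩, hp.2⟩
      refine (Finset.card_le_card h4).trans ((Finset.card_union_le _ _).trans ?_)
      rw [Nat.card_Ioc]
      omega
    have h7 := Chebyshev.pi_ge (T * X)
    have h8 : (T * X : ℝ) ≤ n * n := by
      exact mul_le_mul hTn hX2' (by positivity) hnpos.le
    have h9 : 500 * x ≤ T * X := by nlinarith
    have h10 : Real.log (T * X) ≤ 2 * x := by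
      calc Real.log (T * X) ≤ Real.log (n * n) := Real.log_le_log (by linarith) h8
        _ = 2 * x := by rw [Real.log_mul hnpos.ne' hnpos.ne', hx]; ring
    have h11 : 0 < Real.log (T * X) := Real.log_pos (by linarith)
    have h12 : Real.log ((T : ℝ) * X + 1) ≤ 2 * x + 1 := by
      have h13 : (T : ℝ) * X + 1 ≤ (T * X) * Real.exp 1 := by
        have h14 := Real.add_one_le_exp (1 : ℝ)
        nlinarith
      calc Real.log ((T : ℝ) * X + 1) ≤ Real.log ((T * X) * Real.exp 1) :=
            Real.log_le_log (by linarith) h13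
        _ = Real.log (T * X) + 1 := by
            rw [Real.log_mul (by linarith) (Real.exp_pos _).ne', Real.log_exp]
        _ ≤ _ := by linarith
    push_cast at h7
    have h15 : (T * X * (6 / 10) : ℝ) ≤ T * X * Real.log 2 - Real.log (T * X + 1) := by
      have h16 : (T * X : ℝ) * (69 / 100) ≤ T * X * Real.log 2 :=
        mul_le_mul_of_nonneg_left (by linarith only [hlog2]) (by positivity)
      linarith only [h16, h12, h9, h2]
    have h17 : (T * X * (6 / 10) : ℝ) / (2 * x) ≤ Nat.primeCounting (T * X) := by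
      calc (T * X * (6 / 10) : ℝ) / (2 * x) ≤ (T * X * (6 / 10) : ℝ) / Real.log (T * X) :=
            div_le_div_of_nonneg_left (by positivity) h11 h10
        _ ≤ _ := div_le_div_of_nonneg_right h15 h11.le
        _ ≤ _ := h7
    have h18 : (15 * x * X : ℝ) ≤ (T * X * (6 / 10) : ℝ) / (2 * x) := by
      rw [le_div_iff₀ (by linarith)]
      have h19 : (50 * x ^ 2 * X : ℝ) ≤ T * X := mul_le_mul_of_nonneg_right hT1 (by positivity)
      nlinarith only [h19]
    have h20 : (Nat.primeCounting (T * X) : ℝ) ≤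
        X + ((Ioc X (T * X)).filter Nat.Prime).card := by exact_mod_cast h3
    have h21 : (Δ : ℝ) ≤ ((Ioc X (T * X)).filter Nat.Prime).card := by
      have h22 : (15 * x - 1) * 1 ≤ (15 * x - 1) * X :=
        mul_le_mul_of_nonneg_left hX1' (by linarith only [h2])
      linarith only [h22, h17, h18, h20, hΔ1, h2]
    exact_mod_cast h21
  · have h3 : (T * n : ℝ) < 2 ^ (Δ + 1) := by
      calc (T * n : ℝ) ≤ n * n := mul_le_mul_of_nonneg_right hTn hnpos.le
        _ = Real.exp (2 * x) := by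
          rw [two_mul, Real.exp_add, hx, Real.exp_log hnpos]
        _ < Real.exp ((Δ + 1 : ℕ) * Real.log 2) := by
          apply Real.exp_lt_exp.2
          push_cast
          nlinarith only [hΔ2, hlog2, h2]
        _ = 2 ^ (Δ + 1) := by
          rw [mul_comm, Real.exp_mul, Real.exp_log (by norm_num), Real.rpow_natCast]
    exact_mod_cast h3
  · push_cast
    have h3 : (T : ℝ) * n ≤ 51 * x ^ 2 * n := mul_le_mul_of_nonneg_right hT2 hnpos.le
    have h4 : (1 : ℝ) ≤ n := by exact_mod_cast (by omega : 1 ≤ n)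
    have h5 : (1 : ℝ) ≤ x ^ 2 := by nlinarith only [h2]
    nlinarith only [h3, h4, h5]

end Pool.Agent.H605.Kak
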